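import Pool.Agent.Y55.Fpf.Neg

/-!
# Periodic groups generated by two fixed-point-free automorphisms, of arbitrary orders

For which `m, n ≥ 2` is every periodic group generated by two fixed-point-free automorphisms of orders
`m` and `n` of an abelian group finite? The question was asked for `m = n = 5`. The answer: exactly
if `m = 2`, or `n = 2`, or `m = n = 3`. If all nontrivial powers of the two automorphisms are
required to be fixed-point-free (regular automorphisms; no difference for prime orders): exactly if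
`m = 2`, or `n = 2`, or both `m` and `n` are in `{3, 4, 6}`.

* If `m = 2`, the first automorphism is `-1`. Regular automorphisms of order `3, 4, 6` satisfy
  `x ^ 2 = s x - 1` with `s = -1, 0, 1`. If `y ^ 2 = t y - 1` as well, and `g = x y` has finite order,
  the powers of `g` and their products with `x` and with `y` span the subring generated by `x` and `y`,
  so that it is finitely generated as an abelian group; by Minkowski's argument a periodic group of
  units of such a ring is finite.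
* If `m ≥ 3` and `n ≥ 4`, let `p` be a prime with `p ≡ 1` modulo `m n`, and let `A` be an infinite
  algebra over `𝔽_p` with two generators `a`, `b` for which `GL_3(A)` is periodic
  (Golod-Shafarevich, theorem `exists_periodic_GL` of the earlier team). Let `ζ`, `ω` be elements of
  `𝔽_p` of orders `m` and `n`, let `e` be the idempotent with three equal rows `(a, b, 1 - a - b)` and
  `x = ζ⁻¹ (1 - e) + ζ e`, `y = diag (ω, ω⁻¹, ω ^ j)`. The algebra generated by `x` and `y` contains all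
  matrices with a single entry `c a` or `c b` in a fixed place, `c ∈ A`, so it is infinite.
-/

set_option autoImplicit false

namespace Pool.Agent.Results.MP_b15bac_al.AllOrders

/-- The automorphism `φ` of the abelian group `A` is fixed-point-free. (The automorphisms of an abelian
group are its `ℤ`-linear automorphisms.) -/
def FixedPointFree {A : Type} [AddCommGroup A] (φ : A ≃ₗ[ℤ] A) : Prop := ∀ a : A, φ a = a → a = 0

/-- All powers of `φ` which are not the identity are fixed-point-free. -/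
def Regular {A : Type} [AddCommGroup A] (φ : A ≃ₗ[ℤ] A) : Prop :=
  ∀ k : ℕ, φ ^ k ≠ 1 → FixedPointFree (φ ^ k)

lemma exists_j (n : ℕ) (hn : 5 ≤ n) (h6 : n ≠ 6) : ∃ j, 2 ≤ j ∧ j + 2 ≤ n ∧ Nat.Coprime n j := by
  have h4 : n % 4 = 0 ∨ n % 4 = 1 ∨ n % 4 = 2 ∨ n % 4 = 3 := by omega
  rcases h4 with h | h | h | h
  · obtain ⟨k, rfl⟩ : ∃ k, n = 4 * (k + 2) := ⟨n / 4 - 2, by omega⟩
    refine ⟨2 * k + 3, by omega, by omega, ?_⟩
    rw [← Nat.isCoprime_iff_coprime]
    refine ⟨-((k : ℤ) + 1), 2 * (k : ℤ) + 3, ?_⟩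
    push_cast
    ring
  · refine ⟨2, le_rfl, by omega, ?_⟩
    rw [Nat.coprime_two_right]
    exact Nat.odd_iff.mpr (by omega)
  · obtain ⟨k, rfl⟩ : ∃ k, n = 4 * (k + 2) + 2 := ⟨n / 4 - 2, by omega⟩
    refine ⟨2 * k + 3, by omega, by omega, ?_⟩
    rw [← Nat.isCoprime_iff_coprime]
    refine ⟨-(((k : ℤ) + 2) * (k + 1)), (2 * (k : ℤ) + 3) + 2 * ((k + 2) * (k + 1)), ?_⟩
    push_cast
    ring
  · refine ⟨2, le_rfl, by omega, ?_⟩
    rw [Nat.coprime_two_right]
    exact Nat.odd_iff.mpr (by omega)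

open Pool.Agent.Y55.Fpf in
lemma fpf_of_reg {A : Type} [AddCommGroup A] (φ : A ≃ₗ[ℤ] A) (h : Pool.Agent.Y55.Fpf.Regular φ)
    (m : ℕ) (hm : 2 ≤ m) (ho : orderOf φ = m) : FixedPointFree φ := by
  have h1 : φ ^ 1 ≠ 1 := by
    rw [pow_one]
    intro h1
    rw [h1, orderOf_one] at ho
    omega
  have := h 1 h1
  rwa [pow_one] at this

/-- The quadratic equation of a regular automorphism of order `3`, `4` or `6`. -/
lemma quad {A : Type} [AddCommGroup A] (φ : A ≃ₗ[ℤ] A) (h : Regular φ) (m : ℕ)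
    (hm : m = 3 ∨ m = 4 ∨ m = 6) (ho : orderOf φ = m) :
    ∃ s : ℤ, ∀ a, φ (φ a) = s • φ a - a := by
  have hp : φ ^ m = 1 := by rw [← ho]; exact pow_orderOf_eq_one φ
  rcases hm with rfl | rfl | rfl
  · exact ⟨-1, Pool.Agent.Y55.Fpf.quad_of_three φ hp (fpf_of_reg φ h 3 (by norm_num) ho)⟩
  · exact ⟨0, Pool.Agent.Y55.Fpf.quad_of_four φ ho h⟩
  · exact ⟨1, Pool.Agent.Y55.Fpf.quad_of_six φ ho h⟩

/-- **Classification of the pairs of orders.** -/
theorem result (m n : ℕ) (hm : 2 ≤ m) (hn : 2 ≤ n) :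
    ((∀ (A : Type) [AddCommGroup A] (α β : A ≃ₗ[ℤ] A), orderOf α = m → orderOf β = n →
        FixedPointFree α → FixedPointFree β →
        (∀ g ∈ Subgroup.closure ({α, β} : Set (A ≃ₗ[ℤ] A)), IsOfFinOrder g) →
        Finite (Subgroup.closure ({α, β} : Set (A ≃ₗ[ℤ] A)))) ↔
      (m = 2 ∨ n = 2 ∨ (m = 3 ∧ n = 3))) ∧
    ((∀ (A : Type) [AddCommGroup A] (α β : A ≃ₗ[ℤ] A), orderOf α = m → orderOf β = n →
        Regular α → Regular β →
        (∀ g ∈ Subgroup.closure ({α, β} : Set (A ≃ₗ[ℤ] A)), IsOfFinOrder g) →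
        Finite (Subgroup.closure ({α, β} : Set (A ≃ₗ[ℤ] A)))) ↔
      (m = 2 ∨ n = 2 ∨ ((m = 3 ∨ m = 4 ∨ m = 6) ∧ (n = 3 ∨ n = 4 ∨ n = 6)))) := by
  -- the case of an involution
  have two : ∀ (A : Type) [AddCommGroup A] (α β : A ≃ₗ[ℤ] A), orderOf α = 2 → FixedPointFree α →
      (∀ g ∈ Subgroup.closure ({α, β} : Set (A ≃ₗ[ℤ] A)), IsOfFinOrder g) →
      Finite (Subgroup.closure ({α, β} : Set (A ≃ₗ[ℤ] A))) := by
    intro A _ α β hα hf hper
    have hp : α ^ 2 = 1 := by rw [← hα]; exact pow_orderOf_eq_one α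
    exact Pool.Agent.Y55.Fpf.finite_of_neg α β (Pool.Agent.Y55.Fpf.neg_of_two α hp hf) hper
  refine ⟨⟨fun H => ?_, ?_⟩, ⟨fun H => ?_, ?_⟩⟩
  · by_contra hcon
    push Not at hcon
    obtain ⟨h1, h2, h3⟩ := hcon
    have key : ∀ m n : ℕ, 3 ≤ m → 4 ≤ n → ∃ (V : Type) (_ : AddCommGroup V) (α β : V ≃ₗ[ℤ] V),
        orderOf α = m ∧ orderOf β = n ∧ FixedPointFree α ∧ FixedPointFree β ∧
        (∀ g ∈ Subgroup.closure ({α, β} : Set (V ≃ₗ[ℤ] V)), IsOfFinOrder g) ∧
        ¬ Finite (Subgroup.closure ({α, β} : Set (V ≃ₗ[ℤ] V))) := by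
      intro m n hm hn
      obtain ⟨V, _, α, β, hα, hβ, hr, hf, hper, hinf⟩ := Pool.Agent.Y55.Fpf.counter m n 2 hm
        (by omega) (fun h => by have := Nat.le_of_dvd (by norm_num) h; omega) (fun q h => by
          rcases Nat.eq_zero_or_pos q with h0 | h0
          · rw [h0] at h; omega
          · have : n * 1 ≤ n * q := Nat.mul_le_mul_left _ h0
            omega)
      refine ⟨V, inferInstance, α, β, hα, hβ, fpf_of_reg α hr m (by omega) hα, ?_, hper, hinf⟩
      have := hf 1 (fun h => by have := Nat.le_of_dvd (by norm_num) h; omega)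
        (fun h => by have := Nat.le_of_dvd (by norm_num) h; omega)
      rwa [pow_one] at this
    by_cases hn4 : 4 ≤ n
    · obtain ⟨V, _, α, β, hα, hβ, hf1, hf2, hper, hinf⟩ := key m n (by omega) hn4
      exact hinf (H V α β hα hβ hf1 hf2 hper)
    · have hn3 : n = 3 := by omega
      have hm4 : 4 ≤ m := by
        by_contra h
        exact h3 (by omega) hn3
      obtain ⟨V, _, α, β, hα, hβ, hf1, hf2, hper, hinf⟩ := key n m (by omega) hm4
      rw [Set.pair_comm] at hper hinf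
      exact hinf (H V β α hβ hα hf2 hf1 hper)
  · rintro (rfl | rfl | ⟨rfl, rfl⟩) A _ α β hα hβ hf1 hf2 hper
    · exact two A α β hα hf1 hper
    · rw [Set.pair_comm] at hper ⊢
      exact two A β α hβ hf2 hper
    · have hp : α ^ 3 = 1 := by rw [← hα]; exact pow_orderOf_eq_one α
      have hq : β ^ 3 = 1 := by rw [← hβ]; exact pow_orderOf_eq_one β
      exact Pool.Agent.Y55.Fpf.finite_of_quad α β (-1) (-1)
        (Pool.Agent.Y55.Fpf.quad_of_three α hp hf1) (Pool.Agent.Y55.Fpf.quad_of_three β hq hf2) hper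
  · by_contra hcon
    push Not at hcon
    obtain ⟨h1, h2, h3⟩ := hcon
    have key : ∀ m n : ℕ, 3 ≤ m → 5 ≤ n → n ≠ 6 →
        ∃ (V : Type) (_ : AddCommGroup V) (α β : V ≃ₗ[ℤ] V),
        orderOf α = m ∧ orderOf β = n ∧ Regular α ∧ Regular β ∧
        (∀ g ∈ Subgroup.closure ({α, β} : Set (V ≃ₗ[ℤ] V)), IsOfFinOrder g) ∧
        ¬ Finite (Subgroup.closure ({α, β} : Set (V ≃ₗ[ℤ] V))) := by
      intro m n hm hn hn6
      obtain ⟨j, hj1, hj2, hj3⟩ := exists_j n hn hn6
      obtain ⟨V, _, α, β, hα, hβ, hr, hf, hper, hinf⟩ := Pool.Agent.Y55.Fpf.counter m n j hm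
        (by omega) (fun h => by have := Nat.le_of_dvd (by omega) h; omega) (fun q h => by
          rcases Nat.eq_zero_or_pos q with h0 | h0
          · rw [h0] at h; omega
          · have : n * 1 ≤ n * q := Nat.mul_le_mul_left _ h0
            omega)
      refine ⟨V, inferInstance, α, β, hα, hβ, hr, fun k hk => ?_, hper, hinf⟩
      have hk2 : ¬ n ∣ k := by
        intro h
        apply hk
        rw [← orderOf_dvd_iff_pow_eq_one, hβ]
        exact h
      exact hf k hk2 fun h => hk2 (hj3.dvd_of_dvd_mul_left h)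
    by_cases hn5 : 5 ≤ n ∧ n ≠ 6
    · obtain ⟨V, _, α, β, hα, hβ, hf1, hf2, hper, hinf⟩ := key m n (by omega) hn5.1 hn5.2
      exact hinf (H V α β hα hβ hf1 hf2 hper)
    · have hn3 : n = 3 ∨ n = 4 ∨ n = 6 := by omega
      have hm5 : 5 ≤ m ∧ m ≠ 6 := by
        by_contra h
        have hm3 : m = 3 ∨ m = 4 ∨ m = 6 := by omega
        obtain ⟨h4, h5, h6⟩ := h3 hm3
        omega
      obtain ⟨V, _, α, β, hα, hβ, hf1, hf2, hper, hinf⟩ := key n m (by omega) hm5.1 hm5.2
      rw [Set.pair_comm] at hper hinf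
      exact hinf (H V β α hβ hα hf2 hf1 hper)
  · rintro (rfl | rfl | ⟨h1, h2⟩) A _ α β hα hβ hf1 hf2 hper
    · exact two A α β hα (fpf_of_reg α hf1 2 le_rfl hα) hper
    · rw [Set.pair_comm] at hper ⊢
      exact two A β α hβ (fpf_of_reg β hf2 2 le_rfl hβ) hper
    · obtain ⟨s, hs⟩ := quad α hf1 m h1 hα
      obtain ⟨t, ht⟩ := quad β hf2 n h2 hβ
      exact Pool.Agent.Y55.Fpf.finite_of_quad α β s t hs ht hper

end Pool.Agent.Results.MP_b15bac_al.AllOrders
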